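import Pool.Agent.Lib.PowerFree.Frozen

/-!
Extendability of `α`-power-free words over large alphabets is decidable: right, left and two-sided
extendability are decidable properties of words over `k` letters as soon as
`⌊1 / (α - 1)⌋ + 6 ≤ k`, or `2 ≤ α` and `⌊1 / (α - 1)⌋ + 5 ≤ k`.
-/

set_option autoImplicit false

namespace Pool.Agent.Results.MP_efc42c_co.LargeAlphabet

open Pool.Agent.PowerFree

theorem result (k : ℕ) (α : ℚ) (hα : 1 < α)
    (hk : ⌊1 / (α - 1)⌋₊ + 6 ≤ k ∨ (2 ≤ α ∧ ⌊1 / (α - 1)⌋₊ + 5 ≤ k)) :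
    ComputablePred (fun u : List (Fin k) =>
      Set.Infinite {x : List (Fin k) | u <+: x ∧
        ∀ w : List (Fin k), w <:+: x → ∀ p : ℕ, 0 < p →
          (∀ i : ℕ, i + p < w.length → w[i]? = w[i + p]?) →
          (w.length : ℚ) < α * (p : ℚ)}) ∧
    ComputablePred (fun u : List (Fin k) =>
      Set.Infinite {x : List (Fin k) | u <:+ x ∧
        ∀ w : List (Fin k), w <:+: x → ∀ p : ℕ, 0 < p →
          (∀ i : ℕ, i + p < w.length → w[i]? = w[i + p]?) →
          (w.length : ℚ) < α * (p : ℚ)}) ∧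
    ComputablePred (fun u : List (Fin k) =>
      Set.Infinite {x : List (Fin k) |
        (∃ v y : List (Fin k), x = v ++ u ++ y ∧ v.length = y.length) ∧
        ∀ w : List (Fin k), w <:+: x → ∀ p : ℕ, 0 < p →
          (∀ i : ℕ, i + p < w.length → w[i]? = w[i + p]?) →
          (w.length : ℚ) < α * (p : ℚ)}) := by
  obtain ⟨B, C, hB, hC, hBC⟩ := exists_BC hα
  rw [floor_eq hBC, le_iff hB hBC] at hk
  have hL := leftExt_computable (k := k) hB hC hk
  have hT := twoExt_computable (k := k) hB hC hk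
  refine ⟨?_, ?_, ?_⟩
  · exact (computablePred_comp hL Primrec.list_reverse.to_comp).of_eq
      (fun u => (right_iff hB hC hBC u).symm)
  · exact hL.of_eq (fun u => (left_iff hB hC hBC u).symm)
  · exact hT.of_eq (fun u => (two_iff hB hC hBC u).symm)

end Pool.Agent.Results.MP_efc42c_co.LargeAlphabet
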